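import Pool.Agent.Q299.TR.Num

/-!
Both versions of the tail ratio statement fail, with the same law `P(X ≥ z) = (1 + z/4) e^{-z}`;
with the constants `1/6` (median) and `1/12` (mean) they hold.
-/

namespace Pool.Agent.Results.MP_966169_pr.TailRatio

open MeasureTheory Q299.TR

/-- Q1 and Q2 with their follow-up questions. -/
theorem result :
    (∃ μ : Measure ℝ, IsLaw μ ∧ Integrable (fun x : ℝ => x) μ ∧
      (∀ z : ℝ, 0 < z → R μ z < (2 * Real.log 2) * z / med μ) ∧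
      (∀ z : ℝ, 0 < z → R μ z < 2 * z / ∫ x, x ∂μ)) ∧
    (∀ μ : Measure ℝ, IsLaw μ → ∃ z : ℝ, 0 < z ∧ (1 / 6) * z / med μ ≤ R μ z) ∧
    (∀ μ : Measure ℝ, IsLaw μ → Integrable (fun x : ℝ => x) μ →
      ∃ z : ℝ, 0 < z ∧ (1 / 12) * z / (∫ x, x ∂μ) ≤ R μ z) :=
  ⟨⟨ν, ν_law, ν_integrable, fun _ hz => R_lt_med hz, fun _ hz => R_lt_mean hz⟩,
    fun _ h => const_med h, fun _ h hi => const_mean h hi⟩

end Pool.Agent.Results.MP_966169_pr.TailRatio
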